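import Pool.Agent.MP_4aec10_nt.LW9

set_option autoImplicit false

namespace Pool.Agent.Results.MP_4aec10_nt.AlgebraicPoints

open Pool.Agent.MP_4aec10_nt Complex

/-- Q1 for tori at algebraic points, and at sums of algebraic points and logarithms of algebraic
points: a single finite-dimensional, conjugation-stable space `V₀` decides; explicitly, the
inequality holds if the span of `α` meets its complex conjugate only in `0`. -/
theorem result :
    (∃ V₀ : Submodule ℚ ℂ, FiniteDimensional ℚ V₀ ∧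
      (∀ v ∈ V₀, IsAlgebraic ℚ v ∧ (starRingEnd ℂ) v ∈ V₀) ∧
      (∀ (ι : Type) [Fintype ι] (α l : ι → ℂ), (∀ i, IsAlgebraic ℚ (α i)) →
        (∀ i, IsAlgebraic ℚ (exp (l i))) →
        (V₀ = ⊥ ∨ ¬ V₀ ≤ Submodule.span ℚ (Set.range α)) → Ineq (α + l)) ∧
      (∀ (ι : Type) [Fintype ι] (α : ι → ℂ), (∀ i, IsAlgebraic ℚ (α i)) →
        V₀ ≠ ⊥ → V₀ ≤ Submodule.span ℚ (Set.range α) → ¬ Ineq α)) ∧
    (∀ (ι : Type) [Fintype ι] (α l : ι → ℂ), (∀ i, IsAlgebraic ℚ (α i)) →
      (∀ i, IsAlgebraic ℚ (exp (l i))) →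
      Disjoint (Submodule.span ℚ (Set.range α))
        (Submodule.span ℚ (Set.range fun i => (starRingEnd ℂ) (α i))) → Ineq (α + l)) ∧
    (∀ (ι : Type) [Fintype ι] (α : ι → ℂ), (∀ i, IsAlgebraic ℚ (α i)) →
      LinearIndependent ℚ (Sum.elim α fun i => (starRingEnd ℂ) (α i)) →
      AlgebraicIndependent ℚ fun o : Option ι => o.elim (Real.pi : ℂ) fun i => exp (α i)) := by
  obtain ⟨V₀, hV₀, hc, h1, h2⟩ := exists_V0
  have hpos : ∀ (ι : Type) [Fintype ι] (α l : ι → ℂ), (∀ i, IsAlgebraic ℚ (α i)) →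
        (∀ i, IsAlgebraic ℚ (exp (l i))) →
        (V₀ ≤ Submodule.span ℚ (Set.range α) → V₀ = ⊥) → Ineq (α + l) :=
    fun ι _ α l hα hl h => ineq_of_dlt α l hα hl (h1 _ (PV_span hα) h)
  refine ⟨⟨V₀, hV₀.1, fun v hv => ⟨mem_QB.1 (hV₀.2 hv), hc v hv⟩, ?_, ?_⟩, ?_, ?_⟩
  · intro ι _ α l hα hl h
    refine hpos ι α l hα hl fun hle => ?_
    rcases h with h | h
    · exact h
    · exact absurd hle h
  · intro ι _ α hα h0 hle
    exact not_ineq_of_dlt α hα (h2 _ (PV_span hα) h0 hle)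
  · intro ι _ α l hα hl hd
    refine hpos ι α l hα hl fun hle => disjoint_conj hc hle ?_
    have h3 : (Submodule.span ℚ (Set.range α)).map cj =
        Submodule.span ℚ (Set.range fun i => (starRingEnd ℂ) (α i)) := by
      rw [Submodule.map_span, ← Set.range_comp]
      rfl
    rw [h3]
    exact hd
  · intro ι _ α hα hli
    exact pi_exp_algInd α hα hli

end Pool.Agent.Results.MP_4aec10_nt.AlgebraicPoints
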