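import Pool.Agent.GALX.X8
import Pool.Agent.ELT.N1
import Pool.Agent.LTG.Grid

set_option autoImplicit false

open Module GAL GAV LTD

namespace Pool.Agent.Results.MP_4aec10_nt.LatticePoints

/-- `ℚ`-linearly independent algebraic numbers, or `ℚ`-linearly independent logarithms of algebraic
numbers, or a tuple whose integer linear combinations are not exponentially small. -/
def Fac {m : ℕ} (y : Fin m → ℂ) : Prop :=
  Sep y ∨ LinearIndependent ℚ y ∧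
    ((∀ i, IsAlgebraic ℚ (y i)) ∨ ∀ i, IsAlgebraic ℚ (Complex.exp (y i)))

/-- A tuple with the measure of linear independence `c / H^κ`, or `ℚ`-linearly independent elements of a number
field of degree at most `κ`. -/
def Mea (κ : ℕ) {n : ℕ} (x : Fin n → ℂ) : Prop :=
  Ms κ x ∨ LinearIndependent ℚ x ∧ ∃ K : IntermediateField ℚ ℂ, FiniteDimensional ℚ K ∧
    finrank ℚ K ≤ κ ∧ ∀ i, x i ∈ K

theorem ms_of {κ n : ℕ} {x : Fin n → ℂ} (h : Mea κ x) : Ms κ x := by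
  rcases h with h | ⟨hli, K, hK, hκ, hxK⟩
  · exact h
  · have hv : LinearIndependent ℚ (fun i => (⟨x i, hxK i⟩ : K)) :=
      LinearIndependent.of_comp K.val.toLinearMap hli
    obtain ⟨c, hc, h1⟩ := ELT.liou K n (fun i => ⟨x i, hxK i⟩) hv
    exact ms_mono ⟨c, hc, h1⟩ hκ

/-- The hypothesis on the lattice spanned by `w_1, …, w_D`. -/
def Adm (g lam n m : ℕ) {D : ℕ} (w : Fin D → ℂ) : Prop :=
  ∃ (x : Fin n → ℂ) (y : Fin m → ℂ), (∀ i j, x i * y j ∈ Submodule.span ℚ (Set.range w)) ∧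
    (Mea (lam * n) x ∧ Fac y ∨ g = 0 ∧ Fac x ∧ Fac y)

theorem rkBd_adm (g s N κ M μ t : ℕ) : ∃ E : ℕ, 1 ≤ E ∧ ∀ (lam n m D : ℕ) (w : Fin D → ℂ),
    1 ≤ lam → E * lam ^ E ≤ m → Adm g lam n m w → RkBd g s N κ M μ t E (E * lam ^ E) n w := by
  obtain ⟨E₁, hE₁, h₁⟩ := rkBd_gen g s N κ M μ t
  obtain ⟨E₂, hE₂, h₂⟩ := rkBd_tor s N κ M μ t
  refine ⟨max E₁ E₂, le_max_of_le_left hE₁, ?_⟩
  intro lam n m D w hlam hm ⟨x, y, hxy, hF⟩
  have hS : ∀ {M : ℕ} (x : Fin M → ℂ), Fac x → Sep x := fun x hx => LTG.sep_of x hx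
  have hlp : 1 ≤ lam ^ (max E₁ E₂) := Nat.one_le_pow _ _ (by omega)
  have hQ1 : E₁ * lam ^ E₁ ≤ max E₁ E₂ * lam ^ (max E₁ E₂) :=
    Nat.mul_le_mul (le_max_left _ _) (Nat.pow_le_pow_right hlam (le_max_left _ _))
  have hQ2 : E₂ ≤ max E₁ E₂ * lam ^ (max E₁ E₂) :=
    (le_max_right _ _).trans (Nat.le_mul_of_pos_right _ (by omega))
  have hp1 : 1 ≤ E₁ * lam ^ E₁ := Nat.mul_pos (by omega) (Nat.pow_pos (by omega))
  rcases hF with ⟨hx, hy⟩ | ⟨hg, hx, hy⟩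
  · exact rkBd_mono (h₁ lam hlam n m D w (hQ1.trans hm) ⟨x, y, ms_of hx, hS y hy, hxy⟩)
      (le_max_left _ _) (Nat.div_le_div_left hQ1 (by omega))
  · subst hg
    exact rkBd_mono (h₂ n m D w (hQ2.trans hm) ⟨x, y, hS x hx, hS y hy, hxy⟩)
      (le_max_right _ _) (Nat.div_le_div_left hQ2 (by omega))

/-- Let `k ⊆ F ⊆ ℂ` be fields, `G` a semi-abelian variety over `k`, `ρ_1, …, ρ_h` and `r` in the Lie algebra of
`G` over `ℂ`, `w_1, …, w_D` complex numbers satisfying `Adm`, and `v_a = r + ∑_i (∑_j a_ij w_j) ρ_i` for the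
integer matrices `a` with entries in `[-H, H]`.
(1) If every algebraic subgroup of `G` whose Lie algebra contains all `ρ_i` has dimension at least `δ`, then
`trdeg_F F(R, exp_G(v_a)) ≥ trdeg_F F(R) + δ` for all `a` except at most
`E 2^{hD} (2H+1)^{hD-⌊n/(E lam^E)⌋}` of them.
(2) If `exp_G(r)` is algebraic, then `d(exp_G(v_a)) ≤ trdeg_F F(exp_G(v_a))` with the same bound for the number
of exceptions. Here `E ≥ 1` depends only on the numerical data of `G` and on (bounds for) the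
transcendence degree of `F` and the number of elements of `R`. -/
theorem result (g s N κ M μ t l : ℕ) : ∃ E : ℕ, 1 ≤ E ∧ ∀ (lam n m D : ℕ) (w : Fin D → ℂ),
    1 ≤ lam → E * lam ^ E ≤ m → Adm g lam n m w → ∀ k F : IntermediateField ℚ ℂ,
    k ≤ F → Algebra.trdeg ℚ F ≤ (t : Cardinal) →
    ∀ (G : SAV g s N κ M μ k) (h : ℕ) (ρ : Fin h → (Fin g → ℂ) × (Fin s → ℂ))
      (r : (Fin g → ℂ) × (Fin s → ℂ)) (H : ℕ),
      (∀ (R : Fin l → ℂ) (δ : ℕ), G.toGV.GenDim ρ δ →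
        Set.ncard {a : Fin h → Fin D → ℤ | (∀ i j, |a i j| ≤ (H : ℤ)) ∧
          ¬ Algebra.trdeg F (IntermediateField.adjoin F (Set.range R)) + (δ : Cardinal) ≤
            Algebra.trdeg F (IntermediateField.adjoin F (Set.range R ∪
              G.toGV.rat (ptl r ρ w a)))} ≤
          E * 2 ^ (h * D) * (2 * H + 1) ^ (h * D - n / (E * lam ^ E))) ∧
      ((∀ x ∈ G.toGV.rat r, IsAlgebraic ℚ x) →
        Set.ncard {a : Fin h → Fin D → ℤ | (∀ i j, |a i j| ≤ (H : ℤ)) ∧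
          ¬ ((G.toGV.dd (ptl r ρ w a) : ℕ) : Cardinal) ≤
            Algebra.trdeg F (IntermediateField.adjoin F (G.toGV.rat (ptl r ρ w a)))} ≤
          E * 2 ^ (h * D) * (2 * H + 1) ^ (h * D - n / (E * lam ^ E))) := by
  obtain ⟨E₁, hE₁, h₁⟩ := rkBd_adm g s N κ M μ (t + l)
  obtain ⟨E₂, hE₂, h₂⟩ := rkBd_adm g s N κ M μ (t + 0)
  refine ⟨max E₁ E₂, le_max_of_le_left hE₁, ?_⟩
  intro lam n m D w hlam hm hw k F hk hF G h ρ r H
  have hQ1 : E₁ * lam ^ E₁ ≤ max E₁ E₂ * lam ^ (max E₁ E₂) :=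
    Nat.mul_le_mul (le_max_left _ _) (Nat.pow_le_pow_right hlam (le_max_left _ _))
  have hQ2 : E₂ * lam ^ E₂ ≤ max E₁ E₂ * lam ^ (max E₁ E₂) :=
    Nat.mul_le_mul (le_max_right _ _) (Nat.pow_le_pow_right hlam (le_max_right _ _))
  have hp1 : 1 ≤ E₁ * lam ^ E₁ := Nat.mul_pos (by omega) (Nat.pow_pos (by omega))
  have hp2 : 1 ≤ E₂ * lam ^ E₂ := Nat.mul_pos (by omega) (Nat.pow_pos (by omega))
  have hm1 : RkBd g s N κ M μ (t + l) (max E₁ E₂) (max E₁ E₂ * lam ^ (max E₁ E₂)) n w :=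
    rkBd_mono (h₁ lam n m D w hlam (hQ1.trans hm) hw) (le_max_left _ _)
      (Nat.div_le_div_left hQ1 (by omega))
  have hm2 : RkBd g s N κ M μ (t + 0) (max E₁ E₂) (max E₁ E₂ * lam ^ (max E₁ E₂)) n w :=
    rkBd_mono (h₂ lam n m D w hlam (hQ2.trans hm) hw) (le_max_right _ _)
      (Nat.div_le_div_left hQ2 (by omega))
  exact ⟨fun R δ hδ => sav_trdeg2 hm1 k F hk hF R G h ρ δ hδ r H,
    fun hr => sav_Q12 hm2 k F hk hF G h ρ r hr H⟩

end Pool.Agent.Results.MP_4aec10_nt.LatticePoints
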