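import Pool.Agent.LTG.Final

set_option autoImplicit false

namespace Pool.Agent.Results.MP_4aec10_nt.ProductGrids

open Pool.Agent.MP_4aec10_nt LTD

/-- `ℚ`-linearly independent algebraic numbers, or `ℚ`-linearly independent logarithms of algebraic
numbers, or a tuple whose integer linear combinations are not exponentially small. -/
def Fac {M : ℕ} (x : Fin M → ℂ) : Prop :=
  Sep x ∨ LinearIndependent ℚ x ∧
    ((∀ i, IsAlgebraic ℚ (x i)) ∨ ∀ i, IsAlgebraic ℚ (Complex.exp (x i)))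

/-- Algebraic independence over a given field of finite transcendence degree, hence the inequality of
Q1, at almost all `n`-tuples of cells of product grids. -/
theorem result :
    (∀ n t : ℕ, ∃ h : ℕ, 1 ≤ h ∧ ∀ F : IntermediateField ℚ ℂ, Algebra.trdeg ℚ F ≤ (t : Cardinal) →
      ∀ (M₁ M₂ M : ℕ) (x : Fin n → Fin M₁ → ℂ) (y : Fin n → Fin M₂ → ℂ) (z : Fin n → ℂ),
        1 ≤ M → M ≤ M₁ → M ≤ M₂ → (∀ i, z i ≠ 0) → (∀ i, Fac (x i)) → (∀ i, Fac (y i)) →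
          (Set.ncard {c : Fin n → Fin M₁ × Fin M₂ | ¬ AlgebraicIndependent F fun i =>
            Complex.exp (z i * (x i (c i).1 * y i (c i).2))} : ℝ) ≤
            2 * h * n * ((M₁ : ℝ) * M₂) ^ n / (M : ℝ) ^ (1 / (h : ℝ))) ∧
    (∀ n l : ℕ, ∃ h : ℕ, 1 ≤ h ∧
      ∀ (M₁ M₂ M : ℕ) (x : Fin n → Fin M₁ → ℂ) (y : Fin n → Fin M₂ → ℂ) (z : Fin n → ℂ),
        1 ≤ M → M ≤ M₁ → M ≤ M₂ → (∀ i, z i ≠ 0) → (∀ i, Fac (x i)) → (∀ i, Fac (y i)) →
        ∀ r : Fin l → ℂ, Ineq r →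
          (Set.ncard {c : Fin n → Fin M₁ × Fin M₂ |
            ¬ (dd (fun i => Complex.exp (z i * (x i (c i).1 * y i (c i).2))) = n ∧
              Ineq (fun i => z i * (x i (c i).1 * y i (c i).2)) ∧
              Ineq (Sum.elim r fun i => z i * (x i (c i).1 * y i (c i).2)))} : ℝ) ≤
            2 * h * n * ((M₁ : ℝ) * M₂) ^ n / (M : ℝ) ^ (1 / (h : ℝ))) := by
  have hS : ∀ {M : ℕ} (x : Fin M → ℂ), Fac x → Sep x := fun x hx => LTG.sep_of x hx
  refine ⟨fun n t => ?_, fun n l => ?_⟩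
  · obtain ⟨h, hh, H⟩ := LTG.grid_final n t
    exact ⟨h, hh, fun F hF M₁ M₂ M x y z hM hM1 hM2 hz hx hy =>
      H F hF M₁ M₂ M x y z hM hM1 hM2 hz (fun i => hS _ (hx i)) (fun i => hS _ (hy i))⟩
  · obtain ⟨h, hh, H⟩ := LTG.grid_q1 n l
    exact ⟨h, hh, fun M₁ M₂ M x y z hM hM1 hM2 hz hx hy =>
      H M₁ M₂ M x y z hM hM1 hM2 hz (fun i => hS _ (hx i)) (fun i => hS _ (hy i))⟩

end Pool.Agent.Results.MP_4aec10_nt.ProductGrids
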